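import Pool.Agent.helper90.FL.Spec

set_option autoImplicit false

namespace Pool.Agent.helper90.FL

open Finset Polynomial
open scoped Classical

theorem BDR (h : CLS_stmt) : BDR_stmt := by
  intro V E s t o j A C D u c hCA hA hc hcT hbd
  obtain ⟨-, c2, c3, c4, -⟩ := h V E s t D
  have hsmall : ∀ v ∈ cls s t D u, (∃ e, o e < j ∧ (s e = v ∨ t e = v)) → ∀ e, (s e = v ∨ t e = v) → o e < j := by
    intro v hv h1 e he
    by_contra hcon
    exact hbd v hv ⟨h1, e, by omega, he⟩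
  have hcl : Cl s t D {v | v ∈ cls s t D u ∧ ∃ e, o e < j ∧ (s e = v ∨ t e = v)} := by
    intro d hd
    constructor
    · rintro ⟨h1, h2⟩
      have h3 := hsmall _ h1 h2 d (Or.inl rfl)
      exact ⟨(c2 u d hd).1 h1, d, h3, Or.inr rfl⟩
    · rintro ⟨h1, h2⟩
      have h3 := hsmall _ h1 h2 d (Or.inr rfl)
      exact ⟨(c2 u d hd).2 h1, d, h3, Or.inl rfl⟩
  have hne : ∃ v, v ∈ cls s t D u ∧ ∃ e, o e < j ∧ (s e = v ∨ t e = v) := by
    rcases hcT with h1 | h1
    · exact ⟨s c, h1, c, hc, Or.inl rfl⟩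
    · exact ⟨t c, h1, c, hc, Or.inr rfl⟩
  obtain ⟨v₀, hv1, hv2⟩ := hne
  have hsub : cls s t D u ⊆ {v | v ∈ cls s t D u ∧ ∃ e, o e < j ∧ (s e = v ∨ t e = v)} := by
    rw [← c3 u v₀ hv1]
    rw [← c3 u v₀ hv1] at hcl hv1
    exact c4 v₀ _ hcl ⟨hv1, hv2⟩
  have hall : ∀ v ∈ cls s t D u, ∀ e, (s e = v ∨ t e = v) → o e < j := by
    intro v hv
    exact hsmall v hv (hsub hv).2
  unfold cut
  ext e
  rw [mem_filter, mem_filter]
  constructor
  · rintro ⟨h1, h2⟩
    refine ⟨?_, h2⟩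
    have h3 : o e < j := by
      by_cases hs : s e ∈ cls s t D u
      · exact hall _ hs e (Or.inl rfl)
      · by_cases ht : t e ∈ cls s t D u
        · exact hall _ ht e (Or.inr rfl)
        · exact absurd ⟨fun g => absurd g hs, fun g => absurd g ht⟩ h2
    rcases hA e h1 h3 with h4 | h4
    · exact h4
    · exact absurd (c2 u e h4) h2
  · rintro ⟨h1, h2⟩
    exact ⟨hCA h1, h2⟩

end Pool.Agent.helper90.FL
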