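import Pool.Agent.helper10.FL.SpecU

/-! Project fl: (MP_70a088_an), part U, row TOPS (start events give lattice data; helper58). The part with a fixed ratio of the radii follows helper46's TOP. -/

set_option autoImplicit false

open Complex Metric Set Filter Topology MeasureTheory
open STA

noncomputable section

namespace FL

/-- `RADH` is monotone in the bound. -/
theorem TOPS_radh (Y : Sys) (J : Set ℂ) (N₀ N₀' : ℝ) (h : STB.RADH Y J N₀) (hN : N₀ ≤ N₀') : STB.RADH Y J N₀' := by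
  obtain ⟨e, θ₁, he, hθ₁, H⟩ := h
  refine ⟨e, θ₁, he, hθ₁, fun θ hθ hθ' => ?_⟩
  obtain ⟨κ, hκ, H'⟩ := H θ hθ hθ'
  refine ⟨κ, hκ, fun y r s a m hy hr hr' hP W hW => ?_⟩
  have h1 := H' y r s a m hy hr hr' hP W hW
  linarith

/-- one ratio `ρ` of the radii. -/
theorem TOPS_core (hPVF : STA.PVF_stmt) (hPLT : PLT_stmt) (f : RTB.RM) (E : Set ℂ) (μ : ℂ → ℂ) (hSOK : SOk (SYR f)) (hJX : JXP (SYR f) (GI.YG f E).J)
    (κ e' s' c₁ ρ : ℝ) (hρ : 0 < ρ) (hρ1 : ρ ≤ 1) (hc₁ : 0 < c₁)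
    (hFLZ : ∀ (U : Ultrafilter ℕ) (y r : ℕ → ℂ) (c : ℂ) (b c' q : ℕ → ℕ), PLS (GI.YG f E).J μ U y (fun j => r j / 2) c → BG (GI.YG f E) U y (fun j => r j / 2) →
      FLI (SYR f) (GI.YG f E).J U y r κ e' s' c₁ b c' q → ∃ (x : ℕ → ℂ) (t : ℕ → ℝ) (a a' : ℕ → ℕ) (u w : ℂ), TB.LD (GI.YG f E) x U t a a' u w ∧ RB.FLS μ x U t)
    (U : Ultrafilter ℕ) (y r : ℕ → ℂ) (c : ℂ) (h q : ℕ → ℕ) (δ : ℝ) (hPLS : PLS (GI.YG f E).J μ U y r c) (hEVT : STB.EVT (SYR f) U y r h q δ)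
    (hBG : BG (GI.YG f E) U y r)
    (hgood : ∀ᶠ j in (U : Filter ℕ), ∃ (y' r' : ℂ) (b c' : ℕ), r' ≠ 0 ∧ y' ∈ (GI.YG f E).J ∧ ‖y' - y j‖ ≤ ‖r j‖ / 4 ∧ ‖r'‖ = ρ * ‖r j‖ ∧
      NPP (PVs y' r' (SYR f)) κ e' s' c₁ b c') :
    ∃ (x : ℕ → ℂ) (t : ℕ → ℝ) (a a' : ℕ → ℕ) (u w : ℂ), TB.LD (GI.YG f E) x U t a a' u w ∧ RB.FLS μ x U t := by
  classical
  let D : ℕ → Prop := fun j => ∃ (y' r' : ℂ) (b c' : ℕ), r' ≠ 0 ∧ y' ∈ (GI.YG f E).J ∧ ‖y' - y j‖ ≤ ‖r j‖ / 4 ∧ ‖r'‖ = ρ * ‖r j‖ ∧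
      NPP (PVs y' r' (SYR f)) κ e' s' c₁ b c'
  have hch : ∀ j, ∃ (y' r' : ℂ) (b c' : ℕ), r' ≠ 0 ∧ ‖r'‖ ≤ 1 ∧ (D j → y' ∈ (GI.YG f E).J ∧ ‖y' - y j‖ ≤ ‖r j‖ / 4 ∧ ‖r'‖ = ρ * ‖r j‖ ∧
      NPP (PVs y' r' (SYR f)) κ e' s' c₁ b c') := by
    intro j
    by_cases hD : D j
    · obtain ⟨y', r', b, c', h0, h1, h2, h3, h4⟩ := hD
      refine ⟨y', r', b, c', h0, ?_, fun _ => ⟨h1, h2, h3, h4⟩⟩
      rw [h3]
      calc ρ * ‖r j‖ ≤ 1 * 1 := mul_le_mul hρ1 (hPLS.r1 j) (norm_nonneg _) zero_le_one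
        _ = 1 := one_mul 1
    · exact ⟨0, 1, 0, 0, one_ne_zero, by simp, fun h => absurd h hD⟩
  choose y' r' b c' hr'0 hr'1 hgd using hch
  have hall : ∀ᶠ j in (U : Filter ℕ), y' j ∈ (GI.YG f E).J ∧ ‖y' j - y j‖ ≤ ‖r j‖ / 4 ∧ ‖r' j‖ = ρ * ‖r j‖ ∧
      NPP (PVs (y' j) (r' j) (SYR f)) κ e' s' c₁ (b j) (c' j) := by
    filter_upwards [hgood] with j hj
    exact hgd j hj
  have hn2 : ‖(2 : ℂ)‖ = 2 := by simp
  have hPLS' : PLS (GI.YG f E).J μ U y' (fun j => r' j / 2) c := by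
    refine hPLT (GI.YG f E).J μ U y r y' (fun j => r' j / 2) c (ρ / 2) (by linarith) (by linarith) hPLS ?_ ?_ ?_
    · filter_upwards [hall] with j hj
      refine ⟨hj.2.1, ?_⟩
      rw [norm_div, hn2, hj.2.2.1]
      ring
    · intro j
      exact div_ne_zero (hr'0 j) two_ne_zero
    · intro j
      show ‖r' j / 2‖ ≤ 1
      rw [norm_div, hn2]
      have := hr'1 j
      linarith
  have hBG' : BG (GI.YG f E) U y' (fun j => r' j / 2) := by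
    obtain ⟨k, hk, hkk⟩ := hBG
    refine ⟨k, hk, ?_⟩
    filter_upwards [hkk, hall] with j h1 h2
    refine Subset.trans ?_ h1
    intro z hz
    rw [mem_ball, dist_eq_norm] at hz ⊢
    have hz' : ‖z - y' j‖ < ‖r' j‖ / 2 := by
      have h3 : ‖r' j / 2‖ = ‖r' j‖ / 2 := by rw [norm_div, hn2]
      rw [← h3]; exact hz
    rw [h2.2.2.1] at hz'
    have h4 : z - y j = (z - y' j) + (y' j - y j) := by ring
    have h5 : ρ * ‖r j‖ ≤ ‖r j‖ := by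
      have := mul_le_mul_of_nonneg_right hρ1 (norm_nonneg (r j))
      linarith
    have h6 := norm_pos_iff.2 (hPLS.r0 j)
    rw [h4]
    calc ‖(z - y' j) + (y' j - y j)‖ ≤ ‖z - y' j‖ + ‖y' j - y j‖ := norm_add_le _ _
      _ < ‖r j‖ := by linarith [h2.2.1]
  -- change of the plane version
  have hpt : ∀ᶠ j in (U : Filter ℕ), ∀ z ∈ ball (0 : ℂ) (1 / 12), ∃ w ∈ ball (0 : ℂ) 1, y' j + r' j * z = y j + r j * w := by
    filter_upwards [hall] with j h2 z hz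
    rw [mem_ball_zero_iff] at hz
    have h6 := norm_pos_iff.2 (hPLS.r0 j)
    refine ⟨(y' j - y j + r' j * z) / r j, ?_, ?_⟩
    · rw [mem_ball_zero_iff, norm_div, div_lt_one h6]
      have h5 : ‖r' j‖ ≤ ‖r j‖ := by
        rw [h2.2.2.1]
        have := mul_le_mul_of_nonneg_right hρ1 (norm_nonneg (r j))
        linarith
      calc ‖y' j - y j + r' j * z‖ ≤ ‖y' j - y j‖ + ‖r' j * z‖ := norm_add_le _ _
        _ ≤ ‖r j‖ / 4 + ‖r j‖ * (1 / 12) := by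
            rw [norm_mul]
            exact add_le_add h2.2.1 (mul_le_mul h5 hz.le (norm_nonneg _) (norm_nonneg _))
        _ < ‖r j‖ := by linarith
    · have h7 := hPLS.r0 j
      field_simp
      ring
  have hFLI : FLI (SYR f) (GI.YG f E).J U y' r' κ e' s' c₁ b c' q :=
    { le := hPLS.le
      ok := hSOK
      jx := hJX
      r0 := hr'0
      yj := hall.mono (fun j hj => hj.1)
      np := hall.mono (fun j hj => hj.2.2.2)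
      q1 := by
        filter_upwards [hEVT.hq] with j hj
        have := hEVT.h1 j
        omega
      gq := by
        filter_upwards [hpt, hEVT.gq] with j h1 h2 z hz
        obtain ⟨w, hw, hw'⟩ := h1 z hz
        have h3 := h2 w hw
        show (SYR f).g (q j) (y' j + r' j * z)
        rw [hw']
        exact h3
      tq := by
        intro δ' hδ'
        filter_upwards [hpt, hEVT.tq (ρ * δ') (mul_pos hρ hδ'), hall] with j h1 h2 h3 z hz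
        obtain ⟨w, hw, hw'⟩ := h1 z hz
        have h4 := h2 w hw
        rw [(hPVF (SYR f) (y j) (r j) (hPLS.r0 j)).2.1, norm_div, div_le_iff₀ (norm_pos_iff.2 (hPLS.r0 j))] at h4
        rw [(hPVF (SYR f) (y' j) (r' j) (hr'0 j)).2.1, hw', norm_div, div_le_iff₀ (norm_pos_iff.2 (hr'0 j)), h3.2.2.1]
        calc ‖T (SYR f) (q j) (y j + r j * w)‖ ≤ ρ * δ' * ‖r j‖ := h4
          _ = δ' * (ρ * ‖r j‖) := by ring }
  exact hFLZ U y' r' c b c' q hPLS' hBG' hFLI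

theorem TOPS (hFLZ : FLZ_stmt) (hNPF : NPF_stmt) (hNPG : NPG_stmt) (hNPH : NPH_stmt) (hNPM : NPM_stmt) (hPLT : PLT_stmt) (hSTART : STB.START_stmt)
    (hEAD : ELR.EAD_stmt) (hRSO : STA.RSO_stmt) (hRGP : STA.RGP_stmt) (hRJN : STA.RJN_stmt) (hRJX : STA.RJX_stmt) (hRIN : STA.RIN_stmt) (hPVF : STA.PVF_stmt) : TOPS_stmt := by
  intro f E s μ hNF hSys hJ hIB N₀' hN₀' hRAD'
  obtain ⟨N₀, hN₀, hRAD⟩ : ∃ N₀ : ℝ, 1 ≤ N₀ ∧ STB.RADH (SYR f) (GI.YG f E).J N₀ := ⟨N₀' + 1, by linarith, TOPS_radh _ _ _ _ hRAD' (by linarith)⟩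
  obtain ⟨N, e₂, M₂, hN, he₂, hM₂, hEAD'⟩ := hEAD f hNF
  have hSOK : SOk (SYR f) := hRSO f
  have hJX : JXP (SYR f) (GI.YG f E).J := hRJX f _ hNF hJ
  obtain ⟨e₁, he₁, hSTART'⟩ := hSTART (SYR f) (GI.YG f E).J μ hSOK (hRGP f hNF _) hJX (hRJN f _ hJ) (hRIN f (GI.YG f E) μ rfl hNF hIB) N₀ hN₀ hRAD N hN
  obtain ⟨N₁, hN₁e, hN₁⟩ : ∃ N₁ : ℝ, N₁ = N₀ + 2 ∧ 3 ≤ N₁ := ⟨N₀ + 2, rfl, by linarith⟩
  obtain ⟨κ, hκe⟩ : ∃ κ : ℝ, κ = min (1 / 10 ^ 4) (1 / (2 * N₁)) := ⟨_, rfl⟩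
  have hκ : 0 < κ := by
    rw [hκe]
    exact lt_min (by norm_num) (by positivity)
  have hκ4 : κ ≤ 1 / 10 ^ 4 := by
    rw [hκe]
    exact min_le_left _ _
  obtain ⟨s₁, hs₁, hFLZ'⟩ := hFLZ f E s μ hNF hSys hIB κ hκ
  obtain ⟨e, he, hee₁, hee₂, hes₁, he17⟩ : ∃ e : ℝ, 0 < e ∧ e ≤ e₁ ∧ e ≤ e₂ ∧ e ≤ s₁ / 2 ∧ e ≤ κ / 10 ^ 17 :=
    ⟨min (min e₁ e₂) (min (s₁ / 2) (κ / 10 ^ 17)), lt_min (lt_min he₁ he₂) (lt_min (by linarith) (by positivity)),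
      (min_le_left _ _).trans (min_le_left _ _), (min_le_left _ _).trans (min_le_right _ _),
      (min_le_right _ _).trans (min_le_left _ _), (min_le_right _ _).trans (min_le_right _ _)⟩
  obtain ⟨M₀, hM₀, hMM₂, hMs₁, hM17⟩ : ∃ M₀ : ℝ, 0 < M₀ ∧ M₀ ≤ M₂ ∧ M₀ ≤ s₁ / (3 * N₁) ∧ M₀ ≤ κ / (3 * 10 ^ 17 * N₁) :=
    ⟨min M₂ (min (s₁ / (3 * N₁)) (κ / (3 * 10 ^ 17 * N₁))), lt_min hM₂ (lt_min (by positivity) (by positivity)),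
      (min_le_left _ _), (min_le_right _ _).trans (min_le_left _ _), (min_le_right _ _).trans (min_le_right _ _)⟩
  obtain ⟨δ, ρ₁, ρ₂, hδ, hρ₁, hρ₁1, hρ₂, hρ₂1, hMain⟩ := hSTART' e he hee₁ M₀ hM₀
  have hNM : N₁ * M₀ ≤ κ / (3 * 10 ^ 17) := by
    have h1 : N₁ * M₀ ≤ N₁ * (κ / (3 * 10 ^ 17 * N₁)) := mul_le_mul_of_nonneg_left hM17 (by linarith)
    have h2 : N₁ * (κ / (3 * 10 ^ 17 * N₁)) = κ / (3 * 10 ^ 17) := by
      have h3 : N₁ ≠ 0 := by linarith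
      field_simp
    linarith
  have hNs : 3 * (N₁ * M₀) ≤ s₁ := by
    have h1 : 3 * (N₁ * M₀) ≤ 3 * (N₁ * (s₁ / (3 * N₁))) := mul_le_mul_of_nonneg_left (mul_le_mul_of_nonneg_left hMs₁ (by linarith)) (by norm_num)
    have h2 : 3 * (N₁ * (s₁ / (3 * N₁))) = s₁ := by
      have h3 : N₁ ≠ 0 := by linarith
      field_simp
    linarith
  have hMN : M₀ ≤ N₁ * M₀ := le_mul_of_one_le_left hM₀.le (by linarith)
  have he21 : e ≤ 1 / 10 ^ 21 := by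
    have h1 : κ / 10 ^ 17 ≤ (1 / 10 ^ 4) / 10 ^ 17 := div_le_div_of_nonneg_right hκ4 (by positivity)
    have h2 : (1 / 10 ^ 4 : ℝ) / 10 ^ 17 = 1 / 10 ^ 21 := by norm_num
    linarith
  have hk1 : 2 * e ≤ κ / 10 ^ 16 := by
    have h1 : (2 : ℝ) * (κ / 10 ^ 17) ≤ κ / 10 ^ 16 := by
      have : (2 : ℝ) * (κ / 10 ^ 17) = (κ / 10 ^ 16) * (1 / 5) := by ring
      have h2 : 0 < κ / 10 ^ 16 := by positivity
      linarith
    linarith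
  have hk2 : 3 * (N₁ * M₀) ≤ κ / 10 ^ 16 := by
    have h1 : (3 : ℝ) * (κ / (3 * 10 ^ 17)) = (κ / 10 ^ 16) * (1 / 10) := by ring
    have h2 : 0 < κ / 10 ^ 16 := by positivity
    linarith
  have hM21 : 3 * M₀ ≤ 1 / 10 ^ 20 := by
    have h1 : κ / 10 ^ 16 ≤ (1 / 10 ^ 4) / 10 ^ 16 := div_le_div_of_nonneg_right hκ4 (by positivity)
    have h2 : (1 / 10 ^ 4 : ℝ) / 10 ^ 16 = 1 / 10 ^ 20 := by norm_num
    linarith
  have hM21' : M₀ ≤ 1 / 10 ^ 21 := by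
    have h0 : κ / (3 * 10 ^ 17) ≤ (1 / 10 ^ 4) / (3 * 10 ^ 17) := div_le_div_of_nonneg_right hκ4 (by positivity)
    have h2 : (1 / 10 ^ 4 : ℝ) / (3 * 10 ^ 17) ≤ 1 / 10 ^ 21 := by norm_num
    linarith
  obtain ⟨c₁, hc₁, hc₁N, hc₁3, hc₁H⟩ : ∃ c₁ : ℝ, 0 < c₁ ∧ c₁ ≤ 1 / (120 * N) ∧ c₁ ≤ 1 / 3 ∧ c₁ ≤ 1 / (2 * N₁) :=
    ⟨min (min (1 / (120 * N)) (1 / 3)) (1 / (2 * N₁)), lt_min (lt_min (by positivity) (by norm_num)) (by positivity),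
      (min_le_left _ _).trans (min_le_left _ _), (min_le_left _ _).trans (min_le_right _ _), min_le_right _ _⟩
  refine ⟨δ, hδ, ?_⟩
  intro U y r c h q hPLS hEVT hBG
  have hev := hMain U y r c hPLS h q hEVT
  -- the good stages
  have hgood : ∀ᶠ j in (U : Filter ℕ), (∃ (y' r' : ℂ) (b c' : ℕ), r' ≠ 0 ∧ y' ∈ (GI.YG f E).J ∧ ‖y' - y j‖ ≤ ‖r j‖ / 4 ∧ ‖r'‖ = ρ₁ * ‖r j‖ ∧
      NPP (PVs y' r' (SYR f)) κ (2 * e) (3 * (N₁ * M₀)) c₁ b c') ∨ (∃ (y' r' : ℂ) (b c' : ℕ), r' ≠ 0 ∧ y' ∈ (GI.YG f E).J ∧ ‖y' - y j‖ ≤ ‖r j‖ / 4 ∧ ‖r'‖ = ρ₂ * ‖r j‖ ∧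
      NPP (PVs y' r' (SYR f)) κ (2 * e) (3 * (N₁ * M₀)) c₁ b c') := by
    filter_upwards [hev] with j hj
    obtain ⟨y', r', h1, h2, h3, h4⟩ := hj
    have hr' : r' ≠ 0 := by
      intro h0
      rcases h3 with h3 | h3
      · rw [h0, norm_zero] at h3
        have := mul_pos hρ₁ (norm_pos_iff.2 (hPLS.r0 j))
        linarith
      · rw [h0, norm_zero] at h3
        have := mul_pos hρ₂ (norm_pos_iff.2 (hPLS.r0 j))
        linarith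
    have hN : ∃ b c' : ℕ, NPP (PVs y' r' (SYR f)) κ (2 * e) (3 * (N₁ * M₀)) c₁ b c' := by
      rcases h4 with ⟨wp, wq, M, σ, l, a, b, k, g1, g2, g3, g4, g5, g6⟩ | ⟨s', a, b, g1, g2, g3⟩ | ⟨s', a, m, g1, g2, g3⟩
      · rcases g6 with g6 | g6
        · exact absurd g6 (hEAD' y' r' wp wq M e σ N l a b k hr' g1 g2 (g3.trans hMM₂) he hee₂ le_rfl g5)
        · have hM' : M ≤ 1 / 10 ^ 21 := by linarith
          have hnp := hNPF (PVs y' r' (SYR f)) wp wq M e N σ l a b k g1 hN he g2 he21 hM' g5 g6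
          exact ⟨b, a + k * b, hNPM _ _ _ _ _ _ _ _ _ _ _ hnp hκ hκ4 le_rfl hk1 (by linarith) hk2 hc₁N⟩
      · have hs' : s' ≤ 1 / 10 ^ 21 := by linarith
        have hnp := hNPG (PVs y' r' (SYR f)) e s' a b ((hPVF (SYR f) y' r' hr').2.2.1 hSOK) he he21 hs' g3
        exact ⟨a, b, hNPM _ _ _ _ _ _ _ _ _ _ _ hnp hκ hκ4 (by linarith) hk1 (by linarith) hk2 hc₁3⟩
      · rw [← hN₁e] at g3
        have hNs' : N₁ * s' ≤ N₁ * M₀ := mul_le_mul_of_nonneg_left g1 (by linarith)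
        have hnp := hNPH (PVs y' r' (SYR f)) e N₁ s' a m ((hPVF (SYR f) y' r' hr').2.2.1 hSOK) he (by linarith) (by rw [← hκe]; linarith) (by rw [← hκe]; linarith [mul_pos (show (0:ℝ) < N₁ by linarith) hM₀]) g3
        rw [← hκe] at hnp
        exact ⟨a, m, hNPM _ _ _ _ _ _ _ _ _ _ _ hnp hκ le_rfl (by linarith) hk1 (by linarith [mul_pos (show (0:ℝ) < N₁ by linarith) hM₀]) hk2 hc₁H⟩
    obtain ⟨b, c', hbc⟩ := hN
    rcases h3 with h3 | h3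
    · exact Or.inl ⟨y', r', b, c', hr', h1, h2, h3, hbc⟩
    · exact Or.inr ⟨y', r', b, c', hr', h1, h2, h3, hbc⟩
  have hFLZ'' : ∀ (U : Ultrafilter ℕ) (y r : ℕ → ℂ) (c : ℂ) (b c' q : ℕ → ℕ), PLS (GI.YG f E).J μ U y (fun j => r j / 2) c → BG (GI.YG f E) U y (fun j => r j / 2) →
      FLI (SYR f) (GI.YG f E).J U y r κ (2 * e) (3 * (N₁ * M₀)) c₁ b c' q → ∃ (x : ℕ → ℂ) (t : ℕ → ℝ) (a a' : ℕ → ℕ) (u w : ℂ), TB.LD (GI.YG f E) x U t a a' u w ∧ RB.FLS μ x U t :=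
    fun U y r c b c' q h1 h2 h3 => hFLZ' U y r c (2 * e) (3 * (N₁ * M₀)) c₁ b c' q (by linarith) hNs hc₁ h1 h2 h3
  rcases Ultrafilter.eventually_or.1 hgood with hg | hg
  · exact TOPS_core hPVF hPLT f E μ hSOK hJX κ (2 * e) (3 * (N₁ * M₀)) c₁ ρ₁ hρ₁ hρ₁1 hc₁ hFLZ'' U y r c h q δ hPLS hEVT hBG hg
  · exact TOPS_core hPVF hPLT f E μ hSOK hJX κ (2 * e) (3 * (N₁ * M₀)) c₁ ρ₂ hρ₂ hρ₂1 hc₁ hFLZ'' U y r c h q δ hPLS hEVT hBG hg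

end FL
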